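import Pool.Agent.Work.MP_667be6_lc.Spl.Main

open Cardinal Pool.Agent.Work.MP_667be6_lc Pool.Agent.Work.MP_667be6_lc.Spl

/-- Assume `V = L`. At every uncountable cardinal `κ` that is a limit cardinal (so at every
strongly inaccessible cardinal, weakly compact ones included) or carries a regular `κ`-tree, there
is a product tree that is a regular `κ`-tree, in which every node splits if `κ` is regular, and
for `d ≥ 2` copies of which the Halpern-Lauchli property fails for every `σ ≥ 2`. -/
theorem Pool.Agent.Results.MP_667be6_lc.SplittingTreesInL.result (hV : VeqL.{0})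
    (κ : Cardinal.{0}) (hκ : ℵ₀ < κ)
    (hT : Order.IsSuccLimit κ ∨ ∃ T : Set (Node κ), IsRegularTree T) :
    ∃ M : κ.ord.ToType → Set κ.ord.ToType, IsRegularTree (prodTree M) ∧
      (κ.IsRegular → ∀ a, (M a).Nontrivial) ∧
      ∀ (d : ℕ) (σ : Cardinal.{0}), 2 ≤ d → 2 ≤ σ →
        ¬ HLFor (fun _ : Fin d => prodTree M) σ := by
  simp only [prodTree_eq_full]
  refine exists_tree hV (isStrongLimit_of_VeqL hV ?_ hκ) hκ
  rcases hT with hT | ⟨T, hT⟩
  · exact hT
  rcases isRegular_or_isSingular hκ.le with hr | hs
  · exact (isInaccessible_of_tree hr hκ hT).isSuccLimit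
  · exact hs.isSuccLimit
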